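import Pool.Agent.Lib.MP_5684f0_lc.I.Main

open Pool.Agent.Lib.MP_5684f0_lc

theorem Pool.Agent.Results.MP_5684f0_lc.Hausdorff.result (L : T.Lay) (f π : Cs → Cs) (c : Cs)
    (hop : ∀ x y, leT c x → leT x y → leM (f x) (f y))
    (hT : ∀ x, leT c x → leT (π x) x ∧ leT x (π x))
    (hb : ∀ a, {x | f (π x) a = true} ∈ T.Cl .one (T.Cl L {U | IsClopen U}))
    (η : Ordinal.{0}) (hη : η < Ordinal.omega 1) (b : Bool) :
    (∀ g : Cs → Cs, (∀ a, I.Pr (T.Cl L {U | IsClopen U}) η b {x | g x a = true}) → leCone g f) ∨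
      ∃ g : Cs → Cs, (∀ a, I.Pr (T.Cl L {U | IsClopen U}) η (!b) {x | g x a = true}) ∧
        leCone f g :=
  I.pure hop hT hb hη b
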