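import Pool.Agent.Lib.MP_5684f0_lc.H.Main

open Pool.Agent.Lib.MP_5684f0_lc

theorem Pool.Agent.Results.MP_5684f0_lc.High.result (f g : Cs → Cs) (c : Cs) (hf : Measurable f)
    (hop : ∀ x y, leT c x → leT x y → leM (f x) (f y))
    (hh : ∀ x z, leT c x → leT z x → leT (H.P3 z) (f x))
    (hg : ∀ a, {x | g x a = true} ∈ BooleanSubalgebra.closure {U : Set Cs | IsOpen U}) :
    leCone g f :=
  H.high hf hop hh hg
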