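import Pool.Agent.Lib.MP_5684f0_lc.N.Main

open Pool.Agent.Lib.MP_5684f0_lc

theorem Pool.Agent.Results.MP_5684f0_lc.Least.result (L : T.Lay) (f π : Cs → Cs) (c : Cs)
    (hf : Measurable f) (hop : ∀ x y, leT c x → leT x y → leM (f x) (f y)) (hπ : Continuous π)
    (hT : ∀ x, leT c x → leT (π x) x ∧ leT x (π x))
    (hb : ∀ a, {x | f (π x) a = true} ∈ T.Cl .one (T.Cl .one (T.Cl L {U | IsClopen U})))
    (hh : ∀ x z v, leT c x → leT z x → T.Dec L z v → leT (G.P 1 v) (f x)) :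
    ∃ b : Bool, ∀ g : Cs → Cs,
      (∀ a, ∃ B : ℕ → Set Cs, (∀ n, B n ∈ T.Cl .one (T.Cl L {U | IsClopen U})) ∧
        {x | g x a = true} = ⋃ n, B n) → leCone (fun x n => xor (g x n) b) f :=
  N.least hf hop hπ hT hb hh
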