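import Pool.Agent.Lib.MP_5684f0_lc.Main

/-! Q1 for order preserving functions of Baire class one. -/

open Pool.Agent.Lib.MP_5684f0_lc

theorem Pool.Agent.Results.MP_5684f0_lc.Linear.result (f g : Cs → Cs) (hf : Tame f)
    (hg : Tame g) : leCone g f ∨ leCone f (cpl g) :=
  linear hf hg
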