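import Pool.Agent.Lib.MP_5684f0_lc.T.Bp

open Pool.Agent.Lib.MP_5684f0_lc

theorem Pool.Agent.Results.MP_5684f0_lc.Ranks.result (L : T.Lay) (f g : Cs → Cs) (c : Cs)
    (hf : ∀ φ : (ℕ → ℕ) → Cs, Continuous φ → ∀ a, BaireMeasurableSet {y | f (φ y) a = true})
    (hop : ∀ x y, leT c x → leT x y → leM (f x) (f y))
    (hh : ∀ x z w, leT c x → leT z x → T.Dec L z w → leT (G.P 2 w) (f x))
    (hg : ∀ a, {x | g x a = true} ∈ BooleanSubalgebra.closure {A : Set Cs | T.Sg L A}) :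
    leCone g f :=
  T.Bp.high hf hop hh hg
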