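import Pool.Agent.Lib.MP_5684f0_lc.Q.Top

open Pool.Agent.Lib.MP_5684f0_lc

theorem Pool.Agent.Results.MP_5684f0_lc.Successor.result (L : T.Lay) (f π : Cs → Cs) (c : Cs)
    (hop : ∀ x y, leT c x → leT x y → leM (f x) (f y))
    (hT : ∀ x, leT c x → leT (π x) x ∧ leT x (π x))
    (hb : ∀ a, {x | f (π x) a = true} ∈ T.Cl .one (T.Cl L {U | IsClopen U}))
    (hh : ∀ x z v, leT c x → leT z x → T.Dec L z v → leT (G.P 0 v) (f x)) :
    ∃ b : Bool, ∀ g : Cs → Cs, (∀ a, T.Sg L {x | g x a = true}) →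
      leCone (fun x n => xor (g x n) b) f :=
  Q.succ' hop hT hb hh
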