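import Pool.Agent.Lib.MP_5684f0_lc.Main

/-! Q2 for order preserving functions of Baire class one. -/

open Pool.Agent.Lib.MP_5684f0_lc

theorem Pool.Agent.Results.MP_5684f0_lc.Wqo.result (F : ℕ → Cs → Cs) (hF : ∀ k, Tame (F k)) :
    ∃ i j, i < j ∧ leCone (F i) (F j) :=
  wqo hF
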